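import Pool.Agent.Lead.MK.Fin3

/-!
# Lattice points on k-spheres in dimension k + 1

For every `k ≥ 4` the number `N_{k,k+1}(r)` is at least `c r log log r` for arbitrarily large radii,
and `N_{3,4}(r)` is at least `c r (log log r) ^ 4`.

Proof. Let `Q` be the product of the primes `p` with `p₀ < p ≤ y`. Modulo `p ^ k` the equation
`x_1 ^ k + … + x_{k+1} ^ k = 0` has the solutions with all `x_i` divisible by `p`, a proportion of
about `1 / p` of the expected number, and, by Hensel's lemma and bounds for exponential sums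
(positivity for odd `k`), at least `(1 - O(p ^ (-3/2)))` times the expected number of primitive
solutions; for `k = 3` and `p ≡ 1 (mod 3)` the Fermat cubic surface has `p ^ 2 + 7 p + 1` points
modulo `p`, which gives `1 + 6 / p` instead. By the Chinese remainder theorem the points of the box
`[0, Q ^ k) ^ (k + 1)` lie on `k`-spheres with `Q ^ k ∣ n` by a factor `∏ (1 + a_p / p - O(p ^ (-3/2)))`,
`a_p = 1`, or `a_p = 7` for `k = 3`, `p ≡ 1 (mod 3)`, more often than expected. This is `≫ log y`, for
`k = 3` it is `≫ (log y) ^ 4`, and `log y ≫ log log r`.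
-/

set_option autoImplicit false

namespace Pool.Agent.Results.MP_927be3_nt.DimensionKPlusOne

open Pool.Agent.Lead.MK

theorem result : ∀ k : ℕ, 3 ≤ k → ∃ c : ℝ, 0 < c ∧ ∀ R : ℝ, ∃ n : ℕ, 0 < n ∧ R ≤ rad k n ∧
      c * (rad k n * Real.log (Real.log (rad k n)) ^ (if k = 3 then 4 else 1)) ≤ NN k (k + 1) n :=
  Fin3.main

end Pool.Agent.Results.MP_927be3_nt.DimensionKPlusOne
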